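import Pool.Agent.H247.VE.Stm

/-! CC2: chains in an isolated part (project VE of helper247). -/

set_option autoImplicit false

universe u

open Set

namespace Pool.Agent.H20.VE.CC2

open Pool.Agent.H247.VE
open Pool.Agent.R774.OS (CR)

theorem main (hCC : Pool.Agent.H247.SD.S_CC.{u}) : S_CC2.{u} := by
  intro X _ _ G K hK a ha b hb δ hδ
  have hdisj : Disjoint K (CR (G : X → X) \ K) := Set.disjoint_left.2 fun z h1 h2 => h2.2 h1
  obtain ⟨s, hs, hdis⟩ := hdisj.exists_thickenings hK.cl.isCompact hK.cl'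
  have hnear : ∀ y ∈ K, ∀ z, z ∈ CR (G : X → X) → dist y z < s → z ∈ K := by
    intro y hy z hz hyz
    by_contra hzK
    refine Set.disjoint_left.1 hdis (?_ : z ∈ _) ?_
    · rw [Metric.mem_thickening_iff]
      exact ⟨y, hy, by rwa [dist_comm]⟩
    · exact Metric.self_subset_thickening hs _ ⟨hz, hzK⟩
  obtain ⟨p, x, k, hp, hper, hCR, hd, hx0, hxk⟩ := hCC X G a b hb (min δ s) (lt_min hδ hs)
  refine ⟨p, x, k, hp, hper, ?_, fun j => lt_of_lt_of_le (hd j) (min_le_left _ _), hx0, hxk⟩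
  intro j
  induction j with
  | zero => rw [hx0]; exact ha
  | succ j ih =>
    exact hnear _ (hK.fwd _ ih) _ (hCR (j + 1)) (lt_of_lt_of_le (hd j) (min_le_right _ _))

end Pool.Agent.H20.VE.CC2
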